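import Pool.Agent.TH590.JH.Pure

/-!
# Ratios of successive critical values and smooth affine cubic hypersurfaces
-/

set_option autoImplicit false

open CategoryTheory CategoryTheory.Limits AlgebraicGeometry Pool.Agent.TH90.Cub
  Pool.Agent.TH590.JH
open scoped TensorProduct

namespace Pool.Agent.Results.MP_c63a07_nt.CubicHypersurfaces

universe v u

attribute [local instance] Abelian.hasFiniteBiproducts

/-- `e ⊗ z` in `E ⊗ ℂ`. -/
noncomputable abbrev tm {E : Type} [Field E] [NumberField E] (e : E) (z : ℂ) : E ⊗[ℚ] ℂ :=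
  e ⊗ₜ[ℚ] z

/-- The data in the conjecture, for a theory of motives over `F` with coefficients in `E`. For a
motive `M₀` over `F` they refer to `M = Res_{F/ℚ}(M₀)` and to the completed `L`-functions
`L(s, ι, M)`. -/
structure Values (E : Type) [Field E] [NumberField E] {F : Type} [Field F] {𝓐 : Type u}
    [Category.{v} 𝓐] [Abelian 𝓐] (T : Theory F 𝓐) where
  /-- `M` has no middle Hodge type -/
  NoMiddle : 𝓐 → Prop
  /-- the rank `n` of `M₀` over `E` -/
  rank : 𝓐 → ℕ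
  /-- the integer `m` is critical for `L(s, M)` -/
  Critical : 𝓐 → ℤ → Prop
  /-- all `L(s, ι, M)` continue meromorphically to `ℂ` and are holomorphic at `m` -/
  Cont : 𝓐 → ℤ → Prop
  /-- the value `L(m, M)` -/
  L : ℤ → 𝓐 → E ⊗[ℚ] ℂ
  /-- direct sums of motives of the same weight -/
  additive : ∀ (w : ℤ) (n : ℕ) (S : Fin n → 𝓐) (M : 𝓐), (∀ a, T.IsPure w (S a)) →
    Nonempty (M ≅ ⨁ S) →
    (NoMiddle M ↔ ∀ a, NoMiddle (S a)) ∧
    rank M = ∑ a, rank (S a) ∧
    (NoMiddle M → ∀ m, Critical M m ↔ ∀ a, Critical (S a) m) ∧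
    (∀ m, (∀ a, Cont (S a) m) → Cont M m ∧ L m M = ∏ a, L m (S a))
  /-- Tate twists -/
  twist : ∀ (w : ℤ) (M : 𝓐) (n : ℤ), T.IsPure w M →
    (NoMiddle M → NoMiddle ((T.tw n).obj M)) ∧
    rank ((T.tw n).obj M) = rank M ∧
    (NoMiddle M → ∀ m, Critical ((T.tw n).obj M) m ↔ Critical M (m + n)) ∧
    (∀ m, Cont ((T.tw n).obj M) m ↔ Cont M (m + n)) ∧
    (∀ m, L m ((T.tw n).obj M) = L (m + n) M)

section

variable {E : Type} [Field E] [NumberField E] {F : Type} [Field F] {𝓐 : Type u}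
  [Category.{v} 𝓐] [Abelian 𝓐] {T : Theory F 𝓐}

/-- `m` and `m + 1` are critical for `M`, the `L`-functions are holomorphic at `m` and at `m + 1`,
and `L(m + 1, M)` is nonzero (in each component, that is, a unit of `E ⊗ ℂ`). -/
def Values.Applies (D : Values E T) (M : 𝓐) (m : ℤ) : Prop :=
  D.NoMiddle M ∧ D.Critical M m ∧ D.Critical M (m + 1) ∧ D.Cont M m ∧ D.Cont M (m + 1) ∧
    IsUnit (D.L (m + 1) M)

/-- The assertion `L(m, M) / L(m + 1, M) = (1 ⊗ δ)^n` in `(E ⊗ ℂ) / E^×`. -/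
def Values.Conj (D : Values E T) (δ : ℂ) (M : 𝓐) (m : ℤ) : Prop :=
  ∃ e : E, e ≠ 0 ∧ D.L m M = tm e (δ ^ D.rank M) * D.L (m + 1) M

theorem tm_mul (a b : E) (x y : ℂ) : tm a x * tm b y = tm (a * b) (x * y) :=
  Algebra.TensorProduct.tmul_mul_tmul _ _ _ _

theorem prod_tm {n : ℕ} (e : Fin n → E) (z : Fin n → ℂ) :
    ∏ a, tm (e a) (z a) = tm (∏ a, e a) (∏ a, z a) := by
  have h9 : ∀ s : Finset (Fin n), (∏ a ∈ s, tm (e a) (z a) : E ⊗[ℚ] ℂ) =
      tm (∏ a ∈ s, e a) (∏ a ∈ s, z a) := by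
    intro s
    induction s using Finset.induction_on with
    | empty => simp [Algebra.TensorProduct.one_def]
    | insert a s ha ih =>
      rw [Finset.prod_insert ha, Finset.prod_insert ha, Finset.prod_insert ha, ih, tm_mul]
  exact h9 Finset.univ

theorem conj_sum (D : Values E T) (δ : ℂ) (w : ℤ) (n : ℕ) (S : Fin n → 𝓐) (M : 𝓐)
    (hS : ∀ a, T.IsPure w (S a)) (hM : Nonempty (M ≅ ⨁ S)) (m : ℤ)
    (hc : ∀ a, D.Cont (S a) m ∧ D.Cont (S a) (m + 1)) (h : ∀ a, D.Conj δ (S a) m) :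
    D.Conj δ M m := by
  obtain ⟨-, h2, -, h4⟩ := D.additive w n S M hS hM
  choose e he0 he using h
  refine ⟨∏ a, e a, Finset.prod_ne_zero_iff.2 fun a _ => he0 a, ?_⟩
  rw [(h4 m fun a => (hc a).1).2, (h4 (m + 1) fun a => (hc a).2).2, h2,
    ← Finset.prod_pow_eq_pow_sum, ← prod_tm, ← Finset.prod_mul_distrib]
  exact Finset.prod_congr rfl fun a _ => he a

theorem conj_tw (D : Values E T) (δ : ℂ) (w : ℤ) (M : 𝓐) (n : ℤ) (hM : T.IsPure w M) (m : ℤ)
    (h : D.Conj δ M (m + n)) : D.Conj δ ((T.tw n).obj M) m := by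
  obtain ⟨-, h2, -, -, h5⟩ := D.twist w M n hM
  obtain ⟨e, he0, he⟩ := h
  refine ⟨e, he0, ?_⟩
  rw [h5, h5, h2, he]
  ring_nf

/-- a simple subquotient of a simple object is isomorphic to it -/
theorem iso_of_subQuot {S M : 𝓐} (hS : Simple S) (hM : Simple M) (h : SubQuot S M) :
    Nonempty (S ≅ M) := by
  obtain ⟨Y, i, p, hi, hp⟩ := h
  have hi0 : i ≠ 0 := by
    rintro rfl
    have hY : IsZero Y := IsZero.of_mono_eq_zero (0 : Y ⟶ M) rfl
    exact Simple.not_isZero S (IsZero.of_epi p hY)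
  have hiso : IsIso i := isIso_of_mono_of_nonzero hi0
  have hY : Simple Y := Simple.of_iso (asIso i)
  have hp0 : p ≠ 0 := by
    rintro rfl
    exact Simple.not_isZero S (IsZero.of_epi_eq_zero (0 : Y ⟶ S) rfl)
  have hpi : IsIso p := isIso_of_epi_of_nonzero hp0
  exact ⟨(asIso p).symm.trans (asIso i)⟩

end

/-- The field generated by `1` and a primitive element is the whole field. -/
theorem closure_top {F : Type} [Field F] [NumberField F] (θ : F)
    (hθ : IntermediateField.adjoin ℚ {θ} = ⊤) : Subfield.closure ({1, θ} : Set F) = ⊤ := by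
  rw [eq_top_iff]
  intro x _
  have hx : x ∈ IntermediateField.adjoin ℚ {θ} := by rw [hθ]; trivial
  have h1 : (IntermediateField.adjoin ℚ {θ}).toSubfield ≤ Subfield.closure ({1, θ} : Set F) := by
    rw [IntermediateField.adjoin_toSubfield]
    refine Subfield.closure_le.2 ?_
    rintro y (⟨q, rfl⟩ | hy)
    · rw [eq_ratCast]
      exact SubfieldClass.ratCast_mem _ q
    · rw [Set.mem_singleton_iff.1 hy]
      exact Subfield.subset_closure (by simp)
  exact h1 hx

/-- **Ratios of successive critical values and smooth affine cubic hypersurfaces.** Let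
`F = ℚ(θ)` be a totally imaginary number field of degree `d_F` and `δ` a complex number (in the
conjecture `δ = Δ_F`). The formula
`L(m, M) / L(m + 1, M) = (1 ⊗ i^(d_F / 2) δ)^n` in `(E ⊗ ℂ) / E^×` holds for all pure motives `M₀`
over `F` and all `m` to which the conjecture applies and for which the `L`-functions of the simple
constituents of `M₀` are holomorphic at `m` and `m + 1`, if and only if it holds for those simple
`M₀` which are subquotients of some `H_c^j(C)` (without Tate twist) and all `m` to which the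
conjecture applies, where `C` is a hypersurface `g_0 t_0 + ⋯ + g_r t_r = 1` in the affine space
with the coordinates `x_1, …, x_n, t_0, …, t_r` over `F`, each `g_i` being of the form
`x_a x_b - x_c`, `x_a + x_b - x_c`, `x_a - 1` or `x_a - θ`. These hypersurfaces are smooth. -/
theorem result (E F : Type) [Field E] [NumberField E] [Field F] [NumberField F]
    [NumberField.IsTotallyComplex F] (θ : F) (hθ : IntermediateField.adjoin ℚ {θ} = ⊤)
    {𝓐 : Type u} [Category.{v} 𝓐] [Abelian 𝓐] (T : WeightTheory F 𝓐) (D : Values E T.toTheory)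
    (δ : ℂ) :
    ((∀ (w : ℤ) (M : 𝓐), T.IsPure w M → ∀ m, D.Applies M m →
        (∀ S : 𝓐, Simple S → SubQuot S M → D.Cont S m ∧ D.Cont S (m + 1)) →
        D.Conj (Complex.I ^ (Module.finrank ℚ F / 2) * δ) M m) ↔
      (∀ M : 𝓐, Simple M →
        (∃ (n r : ℕ) (g : Fin (r + 1) → MvPolynomial (Fin n) F), (∀ i, IsGate {1, θ} (g i)) ∧
          ∃ j : ℤ, SubQuot M (T.H j (Spec (CommRingCat.of (Cubic g))) (str F (Cubic g)))) →
        ∀ m, D.Applies M m → D.Conj (Complex.I ^ (Module.finrank ℚ F / 2) * δ) M m)) ∧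
    (∀ (n r : ℕ) (g : Fin (r + 1) → MvPolynomial (Fin n) F), Smooth (str F (Cubic g))) := by
  generalize Complex.I ^ (Module.finrank ℚ F / 2) * δ = δ'
  have hiso : ∀ (w : ℤ) (M N : 𝓐), T.IsPure w M → Nonempty (N ≅ M) →
      Nonempty (N ≅ ⨁ (fun _ : Fin 1 => M)) := by
    rintro w M N _ ⟨e⟩
    exact ⟨e.trans (biproductUniqueIso (fun _ : Fin 1 => M)).symm⟩
  -- continuation does not change under isomorphisms
  have hcont : ∀ (w : ℤ) (M N : 𝓐), T.IsPure w M → Nonempty (N ≅ M) → ∀ m, D.Cont M m →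
      D.Cont N m := fun w M N hM e m hc =>
    ((D.additive w 1 (fun _ => M) N (fun _ => hM) (hiso w M N hM e)).2.2.2 m fun _ => hc).1
  refine ⟨⟨fun h M hM hc m hap => ?_, fun h w M hM m hap hcs => ?_⟩,
    fun n r g => cubic_smooth g⟩
  · obtain ⟨n, r, g, hg, j, hq⟩ := hc
    obtain ⟨e⟩ := T.tw_zero
    obtain ⟨w, hw⟩ := T.pure_of_cubic hM (S := {1, θ})
      ⟨n, r, g, hg, j, 0, hq.of_iso (e.symm.app _)⟩
    refine h w M hw m hap fun S hS hSM => ?_
    have hSM' := iso_of_subQuot hS hM hSM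
    exact ⟨hcont w M S hw hSM' m hap.2.2.2.1, hcont w M S hw hSM' (m + 1) hap.2.2.2.2.1⟩
  · obtain ⟨hN, hc0, hc1, -, -, hunit⟩ := hap
    obtain ⟨n, S, hSa, hMS⟩ := hM
    have hpure : ∀ a, T.IsPure w (S a) := fun a => Theory.IsPure.of_simple (hSa a).1 (hSa a).2
    obtain ⟨h1, -, h3, h4⟩ := D.additive w n S M hpure hMS
    have hsub : ∀ a, SubQuot (S a) M := fun a => by
      obtain ⟨e⟩ := hMS
      refine ⟨S a, biproduct.ι S a ≫ e.inv, 𝟙 _, mono_comp _ _, inferInstance⟩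
    have hca : ∀ a, D.Cont (S a) m ∧ D.Cont (S a) (m + 1) := fun a =>
      hcs (S a) (hSa a).1 (hsub a)
    rw [(h4 (m + 1) fun a => (hca a).2).2] at hunit
    have hua : ∀ a, IsUnit (D.L (m + 1) (S a)) := fun a =>
      isUnit_of_dvd_unit (Finset.dvd_prod_of_mem (fun a => D.L (m + 1) (S a))
        (Finset.mem_univ a)) hunit
    refine conj_sum D δ' w n S M hpure hMS m hca fun a => ?_
    have hNa := h1.mp hN a
    have hcrit0 := (h3 hN m).mp hc0 a
    have hcrit1 := (h3 hN (m + 1)).mp hc1 a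
    obtain ⟨X, f, i, m₀, hf, hw, hq⟩ := (hSa a).2
    have hsimp := (hSa a).1
    obtain ⟨n', r, g, hg, j, m₁, hq'⟩ :=
      T.fromCubic (closure_top θ hθ) (Set.mem_insert 1 {θ}) f hf.ft i m₀ (S a) hsimp hq
    -- the untwisted motive
    obtain ⟨e⟩ := T.twIso m₁ (-m₁) (by ring)
    obtain ⟨e'⟩ := T.twIso (-m₁) m₁ (by ring)
    have hs' := simple_obj (T.tw (-m₁)) (S a)
    have hq2 : SubQuot ((T.tw (-m₁)).obj (S a))
        (T.H j (Spec (CommRingCat.of (Cubic g))) (str F (Cubic g))) :=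
      (hq'.map (T.tw (-m₁))).of_iso (e.app _)
    obtain ⟨t1, -, t3, t4, t5⟩ := D.twist w (S a) (-m₁) (hpure a)
    have hpure' : T.IsPure (w + 2 * m₁) ((T.tw (-m₁)).obj (S a)) := by
      obtain ⟨e2⟩ := T.tw_add m₀ (-m₁)
      exact Theory.IsPure.of_simple hs' ⟨X, f, i, m₀ + -m₁, hf, by rw [← hw]; ring,
        (hq.map (T.tw (-m₁))).of_iso (e2.app _)⟩
    have hap' : D.Applies ((T.tw (-m₁)).obj (S a)) (m + m₁) := by
      have e1 : m + m₁ + -m₁ = m := by ring
      have e2 : m + m₁ + 1 + -m₁ = m + 1 := by ring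
      refine ⟨t1 hNa, ?_, ?_, ?_, ?_, ?_⟩
      · rw [t3 hNa, e1]; exact hcrit0
      · rw [t3 hNa, e2]; exact hcrit1
      · rw [t4, e1]; exact (hca a).1
      · rw [t4, e2]; exact (hca a).2
      · rw [t5, e2]; exact hua a
    have h5 := h _ hs' ⟨n', r, g, hg, j, hq2⟩ (m + m₁) hap'
    have h6 := conj_tw D δ' (w + 2 * m₁) _ m₁ hpure' m h5
    -- transport along `S a ≅ (S a)(-m₁)(m₁)`
    have hpure2 : T.IsPure w ((T.tw m₁).obj ((T.tw (-m₁)).obj (S a))) := by
      have hs2 := simple_obj (T.tw m₁) ((T.tw (-m₁)).obj (S a))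
      exact Theory.IsPure.of_simple hs2 ⟨X, f, i, m₀, hf, hw,
        hq.of_iso_left (e'.app (S a)).symm⟩
    have hcont2 : ∀ k, D.Cont (S a) k → D.Cont ((T.tw m₁).obj ((T.tw (-m₁)).obj (S a))) k :=
      fun k hk => hcont w (S a) _ (hpure a) ⟨e'.app (S a)⟩ k hk
    exact conj_sum D δ' w 1 (fun _ => (T.tw m₁).obj ((T.tw (-m₁)).obj (S a))) (S a)
      (fun _ => hpure2) (hiso w _ _ hpure2 ⟨(e'.app (S a)).symm⟩) m
      (fun _ => ⟨hcont2 m (hca a).1, hcont2 (m + 1) (hca a).2⟩) (fun _ => h6)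

end Pool.Agent.Results.MP_c63a07_nt.CubicHypersurfaces
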