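import Pool.Agent.TH652.CX.GenNF

/-!
# Ratios of successive critical values as limits over primes in the lattice of integers

`M_0` is a motive over a number field `F` with coefficients in a number field `E`, with Euler factors
`P_v ∈ E[X]` at the primes `v` of `F`, such that the inverse roots of all `ι(P_v)` have absolute value
at most `q_v^β` (`β = w / 2` for a pure motive of weight `w`). For an embedding `ι : E → ℂ` let
`L_f(s, ι) = ∏_v ι(P_v)(q_v^{-s})⁻¹`, and `L(s, ι) = L_f(s, ι) · ∏_j Γ_ℂ(s - p_j)` the completed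
`L`-function, where the Hodge types are the `(p_j, q_j)`, `(q_j, p_j)`, `p_j < q_j`, `1 ≤ j ≤ k`. Let `m`
and `m + 1` be critical, so `p_j < m` for all `j`.

For real `γ`, `A`, `T > 0` and a real number `s₀` let

`S(s₀, ι, T) = ∑_{k log q_v ≤ e^{A T}} 1/k · (∑_α α^k) q_v^{-k s₀} · e^{iγt} / Γ(1 + t)`,
`t = k log q_v / T`,

where `α` runs over the inverse roots of `ι(P_v)`; this is a finite sum. We show for `γ > π / 2` and
`A > 1 + β - m`, `A > 0`: the vector `(L(m, ι) / L(m + 1, ι))_ι` is of the form `(ι(e) D)_ι` with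
`e ∈ E` if and only if for some positive integer `N` the vectors

`(N · exp (S(m, ι, T) - S(m + 1, ι, T)))_ι`

come, for arbitrarily large `T`, arbitrarily close to vectors `(ι(a) D / (2π)^k)_ι` with an algebraic
integer `a ∈ E`; and then one and the same `a` has distance `O(1/T)`. In the question `F` is totally
imaginary and `D = (i^{d_F/2} Δ_F)^n`. So the question is one on the Euler factors `P_v` of finitely many
primes at a time. No hypothesis on the zeros of the `L`-functions is made, only the meromorphic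
continuation along the half-line `[m, ∞)` and the holomorphy at `m` and `m + 1` are used.
-/

set_option autoImplicit false

open Filter Topology NumberField IsDedekindDomain Polynomial

namespace Pool.Agent.Results.MP_c63a07_nt.RatioLattice

section
variable {F E : Type} [Field F] [NumberField F] [Field E]

/-- `L_f(s, ι) = ∏_v ι(P_v)(q_v^{-s})⁻¹`. -/
noncomputable def finiteL (P : HeightOneSpectrum (𝓞 F) → E[X]) (ι : E →+* ℂ) (s : ℂ) : ℂ :=
  ∏' v : HeightOneSpectrum (𝓞 F),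
    (((P v).map ι).eval ((Ideal.absNorm v.asIdeal : ℂ) ^ (-s)))⁻¹

/-- `∑ α^k` over the inverse roots `α` of `ι(P)`, with multiplicities. -/
noncomputable def powerSum (P : E[X]) (ι : E →+* ℂ) (k : ℕ) : ℂ :=
  (((P.map ι).roots).map fun ρ => (ρ⁻¹) ^ k).sum

variable (F) in
/-- The prime powers `v ^ k`, `k = x.2 + 1`, with `log (q_v ^ k) ≤ e^{A T}`. -/
def cutoff (A T : ℝ) : Set (HeightOneSpectrum (𝓞 F) × ℕ) :=
  {x | (x.2 + 1) * Real.log (Ideal.absNorm x.1.asIdeal : ℝ) ≤ Real.exp (A * T)}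

/-- The term of `S(s₀, ι, T)` for the prime `v = x.1` and the exponent `k = x.2 + 1`. -/
noncomputable def term (P : HeightOneSpectrum (𝓞 F) → E[X]) (ι : E →+* ℂ) (s₀ γ T : ℝ)
    (x : HeightOneSpectrum (𝓞 F) × ℕ) : ℂ :=
  powerSum (P x.1) ι (x.2 + 1) *
    (((Ideal.absNorm x.1.asIdeal : ℝ) ^ (-((x.2 + 1) * s₀)) /
      ((x.2 + 1) * Real.Gamma (1 + (x.2 + 1) * Real.log (Ideal.absNorm x.1.asIdeal : ℝ) / T)) : ℝ) :
        ℂ) *
    Complex.exp ((γ * ((x.2 + 1) * Real.log (Ideal.absNorm x.1.asIdeal : ℝ) / T) : ℝ) * Complex.I)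

/-- `S(s₀, ι, T)`, a finite sum. -/
noncomputable def logSum (P : HeightOneSpectrum (𝓞 F) → E[X]) (ι : E →+* ℂ) (s₀ A γ T : ℝ) : ℂ :=
  ∑ᶠ x ∈ cutoff F A T, term P ι s₀ γ T x

/-- `exp (S(m, ι, T) - S(m + 1, ι, T))`. -/
noncomputable def ratio (P : HeightOneSpectrum (𝓞 F) → E[X]) (ι : E →+* ℂ) (m : ℤ) (A γ T : ℝ) :
    ℂ :=
  Complex.exp (logSum P ι m A γ T - logSum P ι (m + 1) A γ T)

end

/-- `Γ_ℂ(s) = 2 (2π)^{-s} Γ(s)`. -/
noncomputable def gammaC (s : ℂ) : ℂ := 2 * (2 * (Real.pi : ℂ)) ^ (-s) * Complex.Gamma s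

/-- The completed `L`-function `L(s, ι) = L_f(s, ι) · ∏_j Γ_ℂ(s - p_j)`. -/
noncomputable def completed {E : Type} [Field E] {k : ℕ} (p : Fin k → ℤ)
    (L : (E →+* ℂ) → ℂ → ℂ) (ι : E →+* ℂ) (s : ℂ) : ℂ :=
  L ι s * ∏ j, gammaC (s - p j)

/-- **The question on the ratio of the values at `m` and `m + 1` as one on the approximation of finite
sums over primes by integers of `E`.** -/
theorem result (F E : Type) [Field F] [NumberField F] [Field E] [NumberField E]
    (P : HeightOneSpectrum (𝓞 F) → E[X]) (n : ℕ) (β : ℝ)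
    (hP : ∀ v, (P v).coeff 0 = 1 ∧ (P v).natDegree ≤ n)
    (hroot : ∀ v, ∀ ι : E →+* ℂ, ∀ ρ : ℂ, ((P v).map ι).IsRoot ρ →
      (Ideal.absNorm v.asIdeal : ℝ) ^ (-β) ≤ ‖ρ‖)
    (m : ℤ) (k : ℕ) (p : Fin k → ℤ) (hp : ∀ j, p j < m) (D : ℂ) (hD : D ≠ 0)
    (L : (E →+* ℂ) → ℂ → ℂ) (σ₁ : ℝ)
    (hmer : ∀ ι, ∀ x : ℝ, (m : ℝ) ≤ x → MeromorphicAt (L ι) (x : ℂ))
    (hL : ∀ ι, ∀ s : ℂ, σ₁ < s.re → L ι s = finiteL P ι s)
    (han : ∀ ι, AnalyticAt ℂ (L ι) (m : ℂ)) (han1 : ∀ ι, AnalyticAt ℂ (L ι) ((m : ℂ) + 1))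
    (hne : ∀ ι, L ι ((m : ℂ) + 1) ≠ 0)
    (γ : ℝ) (hγ : Real.pi / 2 < γ) (A : ℝ) (hA : 0 < A) (hA1 : 1 + β - m < A) :
    (∀ T : ℝ, (cutoff F A T).Finite) ∧
    List.TFAE [
      ∃ e : E, ∀ ι : E →+* ℂ, completed p L ι m / completed p L ι (m + 1) = ι e * D,
      ∃ N : ℕ, 0 < N ∧ ∃ a : 𝓞 E, ∃ C : ℝ, ∀ᶠ T : ℝ in atTop, ∀ ι : E →+* ℂ,
        ‖N * ratio P ι m A γ T - ι (a : E) * (D / (2 * Real.pi) ^ k)‖ ≤ C / T,
      ∃ N : ℕ, 0 < N ∧ ∀ δ : ℝ, 0 < δ → ∀ T₀ : ℝ, ∃ T : ℝ, T₀ ≤ T ∧ ∃ a : 𝓞 E, ∀ ι : E →+* ℂ,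
        ‖N * ratio P ι m A γ T - ι (a : E) * (D / (2 * Real.pi) ^ k)‖ < δ] := by
  classical
  have hcfin : ∀ T : ℝ, (cutoff F A T).Finite := fun T =>
    TH652.COL.cut_finite TH652.COL.two_le_nv TH652.COL.nv_finite A T
  refine ⟨hcfin, ?_⟩
  have hdata : ∀ ι : E →+* ℂ,
      TH652.CX.CData TH652.COL.nv (fun v => (P v).map ι) 1 β n := fun ι =>
    TH652.CX.cdata_nv (fun v => by rw [Polynomial.coeff_map, (hP v).1, map_one])
      (fun v => (Polynomial.natDegree_map_le).trans (hP v).2) fun v ρ hρ => hroot v ι ρ hρ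
  have hsum : ∀ (ι : E →+* ℂ) (s₀ T : ℝ), logSum P ι s₀ A γ T =
      -∑ᶠ x ∈ TH652.COL.cut TH652.COL.nv A T,
        TH652.CX.gw TH652.COL.nv (fun v => (P v).map ι) β x *
          TH652.COL.lterm TH652.COL.nv (TH652.CX.mB TH652.COL.nv β) s₀ γ T x := by
    intro ι s₀ T
    unfold logSum
    have hfin := hcfin T
    have hfin' : (TH652.COL.cut (TH652.COL.nv (K := F)) A T).Finite := hfin
    rw [finsum_mem_eq_finite_toFinset_sum _ hfin, finsum_mem_eq_finite_toFinset_sum _ hfin',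
      ← Finset.sum_neg_distrib]
    refine Finset.sum_congr rfl fun x _ => ?_
    have h0 : 0 < TH652.COL.nv x.1 := by linarith [TH652.COL.two_le_nv x.1]
    have hR : (((TH652.COL.nv x.1 ^ β) ^ (x.2 + 1) : ℝ) : ℂ) ≠ 0 := by
      exact_mod_cast (pow_pos (Real.rpow_pos_of_pos h0 β) _).ne'
    unfold term TH652.CX.gw TH652.COL.lterm
    rw [TH652.CX.mB_pw TH652.COL.two_le_nv]
    change TH652.CX.psum ((P x.1).map ι) (x.2 + 1) * _ * _ = _
    have h1 : (TH652.COL.nv x.1 ^ β) ^ (x.2 + 1) * TH652.COL.nv x.1 ^ (-((x.2 + 1) * s₀)) /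
        ((x.2 + 1) * Real.Gamma (1 + (x.2 + 1) * Real.log (TH652.COL.nv x.1) / T)) =
        (TH652.COL.nv x.1 ^ β) ^ (x.2 + 1) * (TH652.COL.nv x.1 ^ (-((x.2 + 1) * s₀)) /
        ((x.2 + 1) * Real.Gamma (1 + (x.2 + 1) * Real.log (TH652.COL.nv x.1) / T))) :=
      mul_div_assoc _ _ _
    rw [h1]
    have h2 : ∀ (a : ℂ) (R y : ℝ) (e : ℂ), (R : ℂ) ≠ 0 →
        a * (y : ℂ) * e = -(a / (R : ℂ) * (((-(R * y) : ℝ) : ℂ) * e)) := by
      intro a R y e hR'
      rw [Complex.ofReal_neg, Complex.ofReal_mul]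
      field_simp
    exact h2 _ _ _ _ hR
  have hF : ∀ ι, ∀ s : ℂ, σ₁ < s.re → L ι s = ∏' v, (((P v).map ι).eval
      ((TH652.COL.nv v : ℂ) ^ (-s)))⁻¹ := by
    intro ι s hs
    rw [hL ι s hs]
    unfold finiteL TH652.COL.nv
    refine tprod_congr fun v => ?_
    rw [Complex.ofReal_natCast]
  have hcast : (((m : ℤ) : ℝ) : ℂ) = (m : ℂ) := Complex.ofReal_intCast m
  have hcast1 : ((((m : ℤ) : ℝ) + 1 : ℝ) : ℂ) = (m : ℂ) + 1 := by
    push_cast
    rfl
  have hlaw : ∀ ι, (fun T : ℝ => ratio P ι m A γ T - L ι m / L ι ((m : ℂ) + 1)) =O[atTop]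
      (fun T : ℝ => 1 / T) := by
    intro ι
    have h1 := TH652.CX.value_law (hdata ι) TH652.COL.nv_finite (F := L ι) (s₀ := m) (hmer ι)
      (hF ι) (by rw [hcast]; exact han ι) hγ hA (by linarith)
    have h2 := TH652.CX.value_law (hdata ι) TH652.COL.nv_finite (F := L ι) (s₀ := m + 1)
      (fun x hx => hmer ι x (by linarith)) (hF ι) (by rw [hcast1]; exact han1 ι) hγ hA
      (by linarith)
    rw [hcast] at h1
    rw [hcast1] at h2
    simp only [← hsum] at h1 h2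
    exact TH652.CX.ratio_law (hne ι) h1 h2
  -- the archimedean factors
  set Pj : ℤ := ∏ j, (m - p j) with hPj
  have hPj0 : Pj ≠ 0 := Finset.prod_ne_zero_iff.2 fun j _ => by
    have := hp j
    omega
  have hpi : (2 * (Real.pi : ℂ)) ^ k ≠ 0 := by
    have : (Real.pi : ℂ) ≠ 0 := by exact_mod_cast Real.pi_ne_zero
    exact pow_ne_zero _ (by simp [this])
  have harch : (∏ j, gammaC ((m : ℂ) - p j)) / (∏ j, gammaC ((m : ℂ) + 1 - p j)) =
      (2 * (Real.pi : ℂ)) ^ k / (Pj : ℂ) := by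
    rw [← Finset.prod_div_distrib, hPj, Int.cast_prod]
    have h1 : ∀ j, gammaC ((m : ℂ) - p j) / gammaC ((m : ℂ) + 1 - p j) =
        2 * Real.pi / ((m - p j : ℤ) : ℂ) := by
      intro j
      have h2 := (TH652.CX.gC_ratio (a := m - p j) (by have := hp j; omega)).2.2
      have h3 : ((m - p j : ℤ) : ℂ) = (m : ℂ) - p j := by push_cast; rfl
      have h4 : (m : ℂ) + 1 - p j = ((m - p j : ℤ) : ℂ) + 1 := by rw [h3]; ring
      rw [h4, ← h3]
      exact h2
    simp only [h1]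
    rw [Finset.prod_div_distrib, Finset.prod_const, Finset.card_univ, Fintype.card_fin]
  have hcompl : ∀ ι, completed p L ι m / completed p L ι (m + 1) =
      L ι m / L ι ((m : ℂ) + 1) * ((2 * (Real.pi : ℂ)) ^ k / (Pj : ℂ)) := by
    intro ι
    unfold completed
    rw [mul_div_mul_comm, harch]
  have hPjc : (Pj : ℂ) ≠ 0 := by exact_mod_cast hPj0
  have hPjE : (Pj : E) ≠ 0 := by exact_mod_cast hPj0
  set c : ℂ := D / (2 * Real.pi) ^ k with hc
  have hc0 : c ≠ 0 := div_ne_zero hD hpi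
  have hiff : ∀ ι (e : E), completed p L ι m / completed p L ι (m + 1) = ι e * D ↔
      L ι m / L ι ((m : ℂ) + 1) = ι (e * Pj) * c := by
    intro ι e
    rw [hcompl ι, map_mul, map_intCast, hc]
    constructor
    · intro h
      field_simp at h ⊢
      linear_combination h
    · intro h
      rw [h]
      field_simp
  tfae_have 1 → 2 := by
    rintro ⟨e, he⟩
    obtain ⟨N, hN, a, ha⟩ := TH652.CX.exists_mult E (e * Pj)
    refine ⟨N, hN, a, ?_⟩
    choose b hb using fun ι => (hlaw ι).bound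
    refine ⟨∑ ι, (N : ℝ) * |b ι|, ?_⟩
    filter_upwards [eventually_all.2 hb, eventually_gt_atTop 0] with T hT hT0 ι
    have h1 := hT ι
    rw [Real.norm_eq_abs, abs_of_pos (by positivity : 0 < 1 / T)] at h1
    have h2 : (N : ℂ) * ratio P ι m A γ T - ι (a : E) * c =
        N * (ratio P ι m A γ T - L ι m / L ι ((m : ℂ) + 1)) := by
      rw [(hiff ι e).1 (he ι), ← ha, map_mul, map_natCast]
      ring
    rw [h2, norm_mul, Complex.norm_natCast]
    calc (N : ℝ) * ‖ratio P ι m A γ T - L ι m / L ι ((m : ℂ) + 1)‖ ≤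
          N * (|b ι| * (1 / T)) := by
          refine mul_le_mul_of_nonneg_left (h1.trans ?_) (Nat.cast_nonneg _)
          exact mul_le_mul_of_nonneg_right (le_abs_self _) (by positivity)
      _ = ((N : ℝ) * |b ι|) / T := by ring
      _ ≤ (∑ ι, (N : ℝ) * |b ι|) / T := by
          refine div_le_div_of_nonneg_right ?_ hT0.le
          exact Finset.single_le_sum (f := fun ι => (N : ℝ) * |b ι|) (fun ι _ => by positivity)
            (Finset.mem_univ ι)
  tfae_have 2 → 3 := by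
    rintro ⟨N, hN, a, C, hC⟩
    refine ⟨N, hN, fun δ hδ T₀ => ?_⟩
    have h1 : Tendsto (fun T : ℝ => C / T) atTop (𝓝 0) :=
      tendsto_const_nhds.div_atTop tendsto_id
    obtain ⟨T, hT1, hT2, hT3⟩ := (hC.and ((h1.eventually_lt_const hδ).and
      (eventually_ge_atTop T₀))).exists
    exact ⟨T, hT3, a, fun ι => lt_of_le_of_lt (hT1 ι) hT2⟩
  tfae_have 3 → 1 := by
    rintro ⟨N, hN, h⟩
    have hN0 : (N : ℂ) ≠ 0 := by exact_mod_cast hN.ne'
    have hNE : (N : E) ≠ 0 := by exact_mod_cast hN.ne'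
    obtain ⟨a, ha⟩ := TH652.CX.closed_of_finite' (X := 𝓞 E) (G := E →+* ℂ)
      (fun a ι => ι (a : E) * c)
      (fun b => TH652.CX.integers_finite E (c := fun _ => c) (fun _ => hc0) b)
      (fun ι => N * (L ι m / L ι ((m : ℂ) + 1)))
      (fun δ hδ => by
        have h1 : ∀ ι : E →+* ℂ, ∀ᶠ T : ℝ in atTop,
            ‖(N : ℂ) * (ratio P ι m A γ T - L ι m / L ι ((m : ℂ) + 1))‖ < δ / 2 := by
          intro ι
          have h2 := ((hlaw ι).trans_tendsto TH652.CX.inv_to_zero).const_mul (N : ℂ)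
          rw [mul_zero] at h2
          have h3 := h2.norm
          rw [norm_zero] at h3
          exact h3.eventually_lt_const (by positivity)
        obtain ⟨T₀, hT₀⟩ := eventually_atTop.1 (eventually_all.2 h1)
        obtain ⟨T, hT, a, h4⟩ := h (δ / 2) (by positivity) T₀
        refine ⟨a, fun ι => ?_⟩
        have h7 : ι (a : E) * c - N * (L ι m / L ι ((m : ℂ) + 1)) =
            N * (ratio P ι m A γ T - L ι m / L ι ((m : ℂ) + 1)) -
              (N * ratio P ι m A γ T - ι (a : E) * c) := by ring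
        rw [h7]
        have h8 := norm_sub_le (N * (ratio P ι m A γ T - L ι m / L ι ((m : ℂ) + 1)))
          (N * ratio P ι m A γ T - ι (a : E) * c)
        have h9 := h4 ι
        have h10 := hT₀ T hT ι
        linarith)
    refine ⟨(a : E) / N / Pj, fun ι => (hiff ι _).2 ?_⟩
    have h1 := ha ι
    beta_reduce at h1
    rw [div_mul_cancel₀ _ hPjE, map_div₀, map_natCast, div_mul_eq_mul_div, h1,
      mul_div_cancel_left₀ _ hN0]
  tfae_finish

end Pool.Agent.Results.MP_c63a07_nt.RatioLattice
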