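import Pool.Agent.TH72.SR.Final

/-!
# Ratios of successive critical values over totally imaginary fields and base change to totally real
fields in which all small primes split completely
-/

set_option autoImplicit false

open NumberField Pool.Agent.TH965.St Pool.Agent.TH349.ORP Pool.Agent.TH72.SR

namespace Pool.Agent.Results.MP_c63a07_nt.SplitBaseChange

/-- `K` is a Galois number field with a real embedding and with `K ∩ F = ℚ` -/
def Adm (F K : IntermediateField ℚ Qb) : Prop :=
  NumberField K ∧ IsGalois ℚ K ∧ Nonempty (K →+* ℝ) ∧ K ⊓ F = ⊥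

/-- The pairs `x = (F, M₀)`, `F` a totally imaginary number field, `M₀` a pure motive over `F` with
coefficients in the number field `E`, `M = Res M₀` without middle Hodge type, and the facts used about
them. Elements of `E ⊗ ℂ = ℂ^Hom(E, ℂ)` are functions on the set of embeddings `E →+* ℂ`. -/
structure Motives (E : Type) [Field E] where
  /-- the pairs `(F, M₀)` -/
  X : Type
  /-- the field `F` -/
  fld : X → IntermediateField ℚ Qb
  /-- half of the degree of `F` -/
  deg : X → ℕ
  /-- the number `Δ_F` -/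
  dl : X → ℂ
  /-- the rank `n` of `M₀` -/
  rk : X → ℕ
  /-- `m` and `m + 1` are critical for `L(s, M)`, and `L(s, M)` continues meromorphically to `ℂ` and is
  holomorphic at `m` and `m + 1` -/
  crit : X → ℤ → Prop
  /-- the value `L(m, M)` of the completed `L`-function, in `E ⊗ ℂ` -/
  L : ℤ → X → (E →+* ℂ) → ℂ
  /-- the pair `(FK, M₀ ⊗ FK)` -/
  bc : X → IntermediateField ℚ Qb → X
  /-- `F` is a number field -/
  nf : ∀ x, NumberField (fld x)
  /-- `Δ_F` is not zero -/
  dl_ne : ∀ x, dl x ≠ 0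
  /-- base change to `F` itself -/
  bc_bot : ∀ x, bc x ⊥ = x
  /-- the rank does not change -/
  rk_bc : ∀ x K, Adm (fld x) K → rk (bc x K) = rk x
  /-- the degree of `FK` -/
  deg_bc : ∀ x K, Adm (fld x) K → deg (bc x K) = deg x * Module.finrank ℚ K
  /-- `Δ_(FK) = ± Δ_F^[K:ℚ]` for totally real `K` -/
  dl_bc : ∀ x K, Adm (fld x) K → dl (bc x K) = dl x ^ Module.finrank ℚ K ∨
    dl (bc x K) = -dl x ^ Module.finrank ℚ K
  /-- the `L`-functions of the base changes are given by the permutation characters (Artin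
  formalism) -/
  mult : ∀ (x : X) (m : ℤ) (n n' : ℕ) (K : Fin n → IntermediateField ℚ Qb)
    (K' : Fin n' → IntermediateField ℚ Qb),
    (∀ a, Adm (fld x) (K a) ∧ crit (bc x (K a)) m) →
    (∀ b, Adm (fld x) (K' b) ∧ crit (bc x (K' b)) m) →
    (∀ g : GQ, ∑ a, perm (K a) g = ∑ b, perm (K' b) g) →
    ∀ σ, ∏ a, L m (bc x (K a)) σ = ∏ b, L m (bc x (K' b)) σ ∧
      ∏ a, L (m + 1) (bc x (K a)) σ = ∏ b, L (m + 1) (bc x (K' b)) σ

section

variable {E : Type} [Field E]

/-- the number `(i^(d_F/2) Δ_F)^n` -/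
noncomputable def Motives.fac (T : Motives E) (x : T.X) : ℂ :=
  (Complex.I ^ T.deg x * T.dl x) ^ T.rk x

/-- the ratio formula: `L(m, M) = (i^(d_F/2) Δ_F)^n L(m + 1, M)` up to a factor in `E^×` -/
def Motives.Formula (T : Motives E) (m : ℤ) (x : T.X) : Prop :=
  ∃ e : E, e ≠ 0 ∧ ∀ σ, T.L m x σ = σ e * T.fac x * T.L (m + 1) x σ

/-- for the base changes of `x` to `FK`, `K` with `Adm (fld x) K`: `m` and `m + 1` are critical, the
continuation property holds and the value at `m + 1` is a unit -/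
def Motives.Good (T : Motives E) (m : ℤ) (x : T.X) : Prop :=
  ∀ K, Adm (T.fld x) K → T.crit (T.bc x K) m ∧ ∀ σ, T.L (m + 1) (T.bc x K) σ ≠ 0

end

/-- for every pair `x` with field contained in `F`: the ratio formula for the base changes to the
composites with `K₁, ..., K_r` implies the ratio formula for `x` -/
def Suffices (F : IntermediateField ℚ Qb) {r : ℕ} (K : Fin r → IntermediateField ℚ Qb) : Prop :=
  ∀ (E : Type) [Field E] [NumberField E] (T : Motives E) (m : ℤ) (x : T.X), T.fld x ≤ F →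
    T.Good m x → (∀ a, T.Formula m (T.bc x (K a))) → T.Formula m x

theorem adm_of {N : ℕ} {F F' K : IntermediateField ℚ Qb} (h : SplitReal N F K) (hF : F' ≤ F) :
    Adm F' K := by
  refine ⟨h.1, h.2.1, h.2.2.2.2.2.1, ?_⟩
  rw [eq_bot_iff, ← h.2.2.2.1]
  exact inf_le_inf_left K hF

theorem adm_bot (F : IntermediateField ℚ Qb) : Adm F ⊥ := by
  refine ⟨nf_bot, ?_, real_emb (N := 0) bot_le, bot_inf_eq F⟩
  have h : (⊥ : IntermediateField ℚ Qb).fixingSubgroup.Normal := by
    rw [IntermediateField.fixingSubgroup_bot]; infer_instance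
  exact (InfiniteGalois.normal_iff_isGalois ⊥).1 h

theorem perm_one (K : IntermediateField ℚ Qb) : perm K 1 = Module.finrank ℚ K := by
  have e : Module.finrank ℚ K = K.fixingSubgroup.index :=
    IntermediateField.finrank_eq_fixingSubgroup_index Qb K
  rw [e]
  exact Nat.card_congr (Equiv.subtypeUnivEquiv fun q => one_smul _ q)

theorem prod_formula {E : Type} [Field E] {T : Motives E} {m : ℤ} {x : T.X} {n : ℕ}
    (K : Fin n → IntermediateField ℚ Qb) (hK : ∀ a, Adm (T.fld x) (K a))
    (h : ∀ a, T.Formula m (T.bc x (K a))) :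
    ∃ e : E, e ≠ 0 ∧ ∀ σ, ∏ a, T.L m (T.bc x (K a)) σ =
      σ e * T.fac x ^ (∑ a, Module.finrank ℚ (K a)) * ∏ a, T.L (m + 1) (T.bc x (K a)) σ := by
  have key : ∀ a, ∃ e : E, e ≠ 0 ∧ ∀ σ, T.L m (T.bc x (K a)) σ =
      σ e * T.fac x ^ (Module.finrank ℚ (K a)) * T.L (m + 1) (T.bc x (K a)) σ := by
    intro a
    obtain ⟨e, he, h1⟩ := h a
    have hf : T.fac (T.bc x (K a)) = T.fac x ^ (Module.finrank ℚ (K a)) ∨
        T.fac (T.bc x (K a)) = -T.fac x ^ (Module.finrank ℚ (K a)) := by
      unfold Motives.fac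
      rw [T.rk_bc x _ (hK a), T.deg_bc x _ (hK a)]
      rcases T.dl_bc x _ (hK a) with h2 | h2
      · left
        rw [h2, pow_mul, ← mul_pow, ← pow_mul, ← pow_mul, mul_comm (T.rk x)]
      · rw [h2, pow_mul, mul_neg, ← mul_pow, neg_pow, ← pow_mul, ← pow_mul, mul_comm (T.rk x)]
        rcases neg_one_pow_eq_or ℂ (T.rk x) with h3 | h3
        · left; rw [h3, one_mul]
        · right; rw [h3, neg_one_mul]
    rcases hf with hf | hf
    · exact ⟨e, he, fun σ => by rw [h1 σ, hf]⟩
    · refine ⟨-e, neg_ne_zero.2 he, fun σ => ?_⟩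
      rw [h1 σ, hf, map_neg]
      ring
  choose e he h1 using key
  refine ⟨∏ a, e a, Finset.prod_ne_zero_iff.2 fun a _ => he a, fun σ => ?_⟩
  rw [map_prod, ← Finset.prod_pow_eq_pow_sum, ← Finset.prod_mul_distrib, ← Finset.prod_mul_distrib]
  exact Finset.prod_congr rfl fun a _ => h1 a σ

theorem main {E : Type} [Field E] (T : Motives E) (m : ℤ) (x : T.X) (hx : T.Good m x) {n n' : ℕ}
    {K : Fin n → IntermediateField ℚ Qb} {K' : Fin n' → IntermediateField ℚ Qb}
    (h1 : ∀ a, Adm (T.fld x) (K a)) (h2 : ∀ b, Adm (T.fld x) (K' b))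
    (h5 : ∀ g : GQ, ∑ a, perm (K a) g = 1 + ∑ b, perm (K' b) g)
    (h3 : ∀ a, T.Formula m (T.bc x (K a))) (h4 : ∀ b, T.Formula m (T.bc x (K' b))) :
    T.Formula m x := by
  let K1 : Fin (n' + 1) → IntermediateField ℚ Qb := Fin.cons ⊥ K'
  have a1 : ∀ b, Adm (T.fld x) (K1 b) := by
    intro b
    refine Fin.cases ?_ (fun i => ?_) b
    · exact adm_bot _
    · exact h2 i
  have b1 := T.mult x m n (n' + 1) K K1 (fun a => ⟨h1 a, (hx _ (h1 a)).1⟩)
    (fun b => ⟨a1 b, (hx _ (a1 b)).1⟩) (by
    intro g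
    rw [Fin.sum_univ_succ, h5 g]
    have : perm (K1 0) g = 1 := perm_bot g
    rw [this]
    rfl)
  have hs : ∑ a, Module.finrank ℚ (K a) = 1 + ∑ b, Module.finrank ℚ (K' b) := by
    have := h5 1
    simpa only [perm_one] using this
  obtain ⟨e, he, c1⟩ := prod_formula K h1 h3
  obtain ⟨e', he', c2⟩ := prod_formula K' h2 h4
  have hfac : T.fac x ≠ 0 :=
    pow_ne_zero _ (mul_ne_zero (pow_ne_zero _ Complex.I_ne_zero) (T.dl_ne x))
  refine ⟨e / e', div_ne_zero he he', fun σ => ?_⟩
  have hσ : ∀ z : E, z ≠ 0 → σ z ≠ 0 := fun z hz h => hz (σ.injective (by rw [h, map_zero]))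
  obtain ⟨b3, b4⟩ := b1 σ
  have e0 : K1 0 = ⊥ := rfl
  have e1 : ∀ b : Fin n', K1 b.succ = K' b := fun _ => rfl
  rw [Fin.prod_univ_succ, e0, T.bc_bot] at b3 b4
  simp only [e1] at b3 b4
  rw [c1 σ, c2 σ, b4, hs, pow_add, pow_one] at b3
  have hP : ∏ b, T.L (m + 1) (T.bc x (K' b)) σ ≠ 0 :=
    Finset.prod_ne_zero_iff.2 fun b _ => (hx _ (h2 b)).2 σ
  have hQ : T.fac x ^ (∑ b, Module.finrank ℚ (K' b)) ≠ 0 := pow_ne_zero _ hfac
  rw [map_div₀, div_mul_eq_mul_div, div_mul_eq_mul_div, eq_div_iff (hσ e' he')]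
  refine mul_right_cancel₀ (mul_ne_zero hP hQ) ?_
  linear_combination -b3

/-- **Ratios of successive critical values and split base change.** Let `N ≥ 0` and let `F` be a
number field. There are finitely many Galois number fields `K₁, ..., K_r`, totally real, of degree at
least `N`, with commutative Galois groups of exponent `2` or `3`, with `K_a ∩ F = ℚ`, in which all
primes `p ≤ N` split completely, such that for every pure motive `M₀` over a totally imaginary field
`F'` contained in `F` (`Good m`): the ratio formula of Q1 for the base changes of `M₀` to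
`F'K₁, ..., F'K_r` implies the ratio formula for `M₀`. Hence the ratio formula for the base changes to
all `F'K`, `K` as above for `F = F'`, implies it for all `(F', M₀)`. -/
theorem result (N : ℕ) :
    (∀ F : IntermediateField ℚ Qb, NumberField F → ∃ (r : ℕ) (K : Fin r → IntermediateField ℚ Qb),
      (∀ a, SplitReal N F (K a)) ∧ Suffices F K) ∧
    ∀ (E : Type) [Field E] [NumberField E] (T : Motives E) (m : ℤ),
      (∀ x K, SplitReal N (T.fld x) K → T.Good m x → T.Formula m (T.bc x K)) →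
      ∀ x, T.Good m x → T.Formula m x := by
  have key : ∀ F : IntermediateField ℚ Qb, NumberField F →
      ∃ (r : ℕ) (K : Fin r → IntermediateField ℚ Qb), (∀ a, SplitReal N F (K a)) ∧
        Suffices F K := by
    intro F hF
    obtain ⟨n, K, n', K', h3, h4, h5⟩ := trivial_character N F hF
    refine ⟨n + n', Fin.append K K', fun a => ?_, ?_⟩
    · refine Fin.addCases (fun i => ?_) (fun i => ?_) a
      · rw [Fin.append_left]; exact h3 i
      · rw [Fin.append_right]; exact h4 i
    · intro E _ _ T m x hx hg hc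
      refine main T m x hg (fun a => adm_of (h3 a) hx) (fun b => adm_of (h4 b) hx) h5 (fun a => ?_)
        (fun b => ?_)
      · have := hc (Fin.castAdd n' a)
        rwa [Fin.append_left] at this
      · have := hc (Fin.natAdd n b)
        rwa [Fin.append_right] at this
  refine ⟨key, fun E _ _ T m H x hx => ?_⟩
  obtain ⟨r, K, h1, h2⟩ := key (T.fld x) (T.nf x)
  exact h2 E T m x le_rfl hx fun a => H x (K a) (h1 a) hx

end Pool.Agent.Results.MP_c63a07_nt.SplitBaseChange
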